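import Mathlib
import Pool.Agent.H45.PC.NEG
import Pool.Agent.H45.PC.P2
import Pool.Agent.H45.PC.NO
import Pool.Agent.H45.CH0Germ
set_option autoImplicit false

namespace Pool.Agent.Results.MP_596c41_ag.NormalResolutionNotAnalyticLocal
open AlgebraicGeometry CategoryTheory Polynomial H45.CH0 H45.PC

/-- The affine scheme with coordinate ring `A`, as a scheme over the complex numbers. -/
noncomputable def aff (A : Type) [CommRing A] [Algebra ℂ A] : Spec (.of A) ⟶ Spec (.of ℂ) :=
  Spec.map (CommRingCat.ofHom (algebraMap ℂ A))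

/-- The closed point of the affine scheme with coordinate ring `A` given by a complex point `p`. -/
noncomputable def point {A : Type} [CommRing A] [Algebra ℂ A] (p : A →ₐ[ℂ] ℂ) : Spec (.of A) :=
  (⟨RingHom.ker p, RingHom.ker_isPrime p⟩ : PrimeSpectrum A)

/-- a complex point of the elliptic curve -/
lemma exists_point_EE : ∃ (j : EE →+* ℂ), (∀ c, j (algebraMap ℂ EE c) = c) ∧ j xE = 4 := by
  obtain ⟨y0, hy0⟩ := IsAlgClosed.exists_pow_nat_eq (60 : ℂ) (n := 2) (by norm_num)
  have h1 : y0 ^ 2 = (4 : ℂ) ^ 3 - 4 := by rw [hy0]; norm_num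
  have h2 : IsUnit ((4 : ℂ) ^ 3 - 4) := IsUnit.mk0 _ (by norm_num)
  refine ⟨eeLift (RingHom.id ℂ) 4 y0 h1 h2, ?_, ?_⟩
  · intro c
    rw [eeLift_C]; rfl
  · rw [eeLift_x]

/-- a complex point of the vertex curve of `X` -/
lemma exists_point_RC : ∃ (u : RC →ₐ[ℂ] ℂ), u uC = 0 ∧ u vC = 0 ∧ u wC = 0 ∧ u xC = 2 ^ 2 := by
  obtain ⟨j, h1, h2⟩ := exists_point_EE
  refine ⟨{ j.comp πC with commutes' := ?_ }, ?_, ?_, ?_, ?_⟩
  · intro c
    change j (πC (algebraMap ℂ RC c)) = c
    rw [πC_alg, h1]
  · change j (πC uC) = 0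
    rw [πC_u, map_zero]
  · change j (πC vC) = 0
    rw [πC_v, map_zero]
  · change j (πC wC) = 0
    rw [πC_w, map_zero]
  · change j (πC xC) = 2 ^ 2
    rw [πC_x, h2]; norm_num

/-- Property (U) is not an analytic local property, even of normal varieties: there are normal affine complex
varieties `X`, `Y`, an etale morphism from `Y` to `X` and a complex point `q` of `Y` with image `p` in `X`, such
that the analytic germs at `p` and `q` are isomorphic, `Y` has property (U) at `q`, but `X` does not have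
property (U) at `p`. -/
theorem result : ∃ (A B : Type) (_ : CommRing A) (_ : CommRing B) (_ : Algebra ℂ A) (_ : Algebra ℂ B)
    (φ : A →ₐ[ℂ] B) (q : B →ₐ[ℂ] ℂ),
    IsDomain A ∧ IsDomain B ∧ IsIntegrallyClosed A ∧ IsIntegrallyClosed B ∧
    Algebra.FiniteType ℂ A ∧ Algebra.FiniteType ℂ B ∧ (φ : A →+* B).Etale ∧
    AnGermIso (q.comp φ) q ∧ HasU (aff B) (point q) ∧ ¬ HasU (aff A) (point (q.comp φ)) := by
  obtain ⟨u, h1, h2, h3, h4⟩ := exists_point_RC
  refine ⟨RC, RD, inferInstance, inferInstance, inferInstance, inferInstance, incl xC,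
    qPoint xC u 2 h4.symm, inferInstance, inferInstance, isIntegrallyClosed_RC, isIntegrallyClosed_RD,
    inferInstance, inferInstance, ?_, anGermIso_quad xC isUnit_xC _, HasU_D _, ?_⟩
  · have h : (algebraMap RC RD).Etale := by
      rw [RingHom.etale_algebraMap]
      exact etale_quad xC isUnit_xC isUnit_two
    exact h
  · apply not_HasUz
    · change (qPoint xC u 2 h4.symm) (incl xC uC) = 0
      rw [qPoint_incl, h1]
    · change (qPoint xC u 2 h4.symm) (incl xC vC) = 0
      rw [qPoint_incl, h2]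
    · change (qPoint xC u 2 h4.symm) (incl xC wC) = 0
      rw [qPoint_incl, h3]

end Pool.Agent.Results.MP_596c41_ag.NormalResolutionNotAnalyticLocal
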